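import Mathlib
import Pool.Agent.Q181.SHDSigma

/-!
MP_47dce7_gt, Q1 (yes): the Stone–Čech remainder of a realcompact space is SHD.
-/

namespace Pool.Agent.Results.MP_47dce7_gt.RealcompactRemainder

open Set Topology Filter Pool.Agent.Q181.SHDSigma

universe u

/-- Realcompact: homeomorphic to a closed subspace of a power of the real line. -/
def Realcompact (X : Type u) [TopologicalSpace X] : Prop :=
  ∃ (κ : Type u) (j : X → (κ → ℝ)), IsClosedEmbedding j

/-- The remainder `X* = βX \ X`, as a subset of `βX`. -/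
def Remainder (X : Type u) [TopologicalSpace X] : Set (StoneCech X) :=
  (range (stoneCechUnit : X → StoneCech X))ᶜ

section
variable {X : Type u} [TopologicalSpace X]

/-- Extension of bounded continuous functions. -/
lemma exists_ext (g : X → ℝ) (hg : Continuous g) (hb : ∀ x, g x ∈ Icc (-1 : ℝ) 1) :
    ∃ G : StoneCech X → ℝ, Continuous G ∧ ∀ x, G (stoneCechUnit x) = g x := by
  let g' : X → Icc (-1 : ℝ) 1 := fun x => ⟨g x, hb x⟩
  have hg' : Continuous g' := hg.subtype_mk _
  let G : StoneCech X → Icc (-1 : ℝ) 1 := stoneCechExtend hg'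
  refine ⟨fun y => (G y : ℝ),
    continuous_subtype_val.comp (continuous_stoneCechExtend hg'), fun x => ?_⟩
  have := congrFun (stoneCechExtend_extends hg') x
  exact congrArg Subtype.val this

/-- The trace on `X` of the neighbourhood filter of a point of `βX` is proper. -/
lemma neBot_trace (x : StoneCech X) : (comap (stoneCechUnit : X → StoneCech X) (𝓝 x)).NeBot := by
  rw [comap_neBot_iff]
  intro t ht
  obtain ⟨_, h, ⟨p, rfl⟩⟩ := mem_closure_iff_nhds.1 (denseRange_stoneCechUnit x) t ht
  exact ⟨p, h⟩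

/-- For realcompact `X`, each point of the remainder is in a zero set missing `X`. -/
lemma exists_zero (hX : Realcompact X) {x : StoneCech X} (hx : x ∈ Remainder X) :
    ∃ f : StoneCech X → ℝ, Continuous f ∧ f x = 0 ∧ (∀ y, 0 ≤ f y) ∧
      ∀ p : X, 0 < f (stoneCechUnit p) := by
  obtain ⟨κ, j, hj⟩ := hX
  have hpos : ∀ (i : κ) (p : X), (0 : ℝ) < 1 + |j p i| := fun i p => by positivity
  have hji : ∀ i, Continuous fun p => j p i := fun i => (continuous_apply i).comp hj.continuous
  have hfc : ∀ i, Continuous fun p => 1 / (1 + |j p i|) := fun i =>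
    continuous_const.div (continuous_const.add (hji i).abs) fun p => (hpos i p).ne'
  have hgc : ∀ i, Continuous fun p => j p i / (1 + |j p i|) := fun i =>
    (hji i).div (continuous_const.add (hji i).abs) fun p => (hpos i p).ne'
  choose F hF hF' using fun i => exists_ext (fun p => 1 / (1 + |j p i|)) (hfc i) (fun p => by
    constructor
    · have : 0 < 1 / (1 + |j p i|) := by have := hpos i p; positivity
      linarith
    · rw [div_le_one (hpos i p)]
      have := abs_nonneg (j p i)
      linarith)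
  choose G hG hG' using fun i => exists_ext (fun p => j p i / (1 + |j p i|)) (hgc i) (fun p => by
    rw [mem_Icc, ← abs_le, abs_div, abs_of_pos (hpos i p), div_le_one (hpos i p)]
    linarith)
  have hFnn : ∀ i y, 0 ≤ F i y := by
    intro i
    have hcl : IsClosed {y | 0 ≤ F i y} := isClosed_le continuous_const (hF i)
    have hsub : range (stoneCechUnit : X → StoneCech X) ⊆ {y | 0 ≤ F i y} := by
      rintro _ ⟨p, rfl⟩
      change 0 ≤ F i (stoneCechUnit p)
      rw [hF']
      have := hpos i p
      positivity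
    intro y
    have := closure_minimal hsub hcl
    rw [denseRange_stoneCechUnit.closure_range] at this
    exact this (mem_univ y)
  by_cases hex : ∃ i, F i x = 0
  · obtain ⟨i, hi⟩ := hex
    refine ⟨F i, hF i, hi, hFnn i, fun p => ?_⟩
    rw [hF']
    have := hpos i p
    positivity
  · exfalso
    push Not at hex
    have := neBot_trace x
    let T := comap (stoneCechUnit : X → StoneCech X) (𝓝 x)
    have hT : Tendsto (stoneCechUnit : X → StoneCech X) T (𝓝 x) := tendsto_comap
    have hlim : Tendsto j T (𝓝 fun i => G i x / F i x) := by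
      rw [tendsto_pi_nhds]
      intro i
      have h1 : Tendsto (fun p => G i (stoneCechUnit p) / F i (stoneCechUnit p)) T
          (𝓝 (G i x / F i x)) :=
        (((hG i).tendsto x).comp hT).div (((hF i).tendsto x).comp hT) (hex i)
      refine h1.congr fun p => ?_
      rw [hG', hF']
      have := (hpos i p).ne'
      field_simp
    have hmem : (fun i => G i x / F i x) ∈ range j := by
      rw [← hj.isClosed_range.closure_eq]
      exact mem_closure_of_tendsto hlim (Eventually.of_forall fun p => ⟨p, rfl⟩)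
    obtain ⟨p, hp⟩ := hmem
    rw [← hp] at hlim
    have hle : T ≤ 𝓝 p := by
      rw [hj.isInducing.nhds_eq_comap]
      exact hlim.le_comap
    have h2 : Tendsto (stoneCechUnit : X → StoneCech X) T (𝓝 (stoneCechUnit p)) :=
      (continuous_stoneCechUnit.tendsto p).mono_left hle
    exact hx ⟨p, tendsto_nhds_unique h2 hT⟩

/-- Separated subsequences of sequences tending to infinity. -/
lemma exists_separated (s : ℕ → ℝ) (hs : Tendsto s atTop atTop) :
    ∃ φ : ℕ → ℕ, StrictMono φ ∧ ∀ k l, k < l → s (φ k) + 1 ≤ s (φ l) := by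
  have h : ∀ (n : ℕ) (a : ℝ), ∃ m > n, a ≤ s m := by
    intro n a
    obtain ⟨m, hm1, hm2⟩ := ((hs.eventually_ge_atTop a).and (eventually_gt_atTop n)).exists
    exact ⟨m, hm2, hm1⟩
  choose m hm1 hm2 using h
  let φ : ℕ → ℕ := fun k => Nat.rec 0 (fun _ n => m n (s n + 1)) k
  have hφ : ∀ k, φ (k + 1) = m (φ k) (s (φ k) + 1) := fun _ => rfl
  have hstep : ∀ k, s (φ k) + 1 ≤ s (φ (k + 1)) := fun k => by rw [hφ]; exact hm2 _ _
  refine ⟨φ, strictMono_nat_of_lt_succ fun k => by rw [hφ]; exact hm1 _ _, ?_⟩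
  intro k l hkl
  induction l, hkl using Nat.le_induction with
  | base => exact hstep k
  | succ l _ ih => linarith [hstep l]

/-- No non-trivial sequence in `βX` converges to a point of a zero set missing `X`. -/
lemma no_seq {x : StoneCech X} {f : StoneCech X → ℝ} (hf : Continuous f) (hfx : f x = 0)
    (hfn : ∀ y, 0 ≤ f y) (hfX : ∀ p : X, 0 < f (stoneCechUnit p)) (y : ℕ → StoneCech X)
    (hy : Tendsto y atTop (𝓝 x)) (hne : ∀ n, y n ≠ x) : False := by
  classical
  -- a function vanishing at `x`, positive on `X` and on the sequence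
  obtain ⟨Φ, hΦ, hΦx, hΦX, hΦy⟩ : ∃ Φ : StoneCech X → ℝ, Continuous Φ ∧ Φ x = 0 ∧
      (∀ p : X, 0 < Φ (stoneCechUnit p)) ∧ ∀ n, 0 < Φ (y n) := by
    have hsep : ∀ n, ∃ φ : StoneCech X → unitInterval, Continuous φ ∧ φ x = 0 ∧ φ (y n) = 1 := by
      intro n
      obtain ⟨φ, h1, h2, h3⟩ := CompletelyRegularSpace.completely_regular x {y n}
        isClosed_singleton (fun h => hne n (mem_singleton_iff.1 h).symm)
      exact ⟨φ, h1, h2, h3 rfl⟩
    choose φ hφ hφx hφy using hsep
    have hsum : Summable fun n : ℕ => (1 / 2 : ℝ) ^ n := summable_geometric_two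
    have hbd : ∀ n z, ‖(1 / 2 : ℝ) ^ n * (φ n z : ℝ)‖ ≤ (1 / 2 : ℝ) ^ n := by
      intro n z
      rw [Real.norm_of_nonneg (mul_nonneg (by positivity) (φ n z).2.1)]
      exact mul_le_of_le_one_right (by positivity) (φ n z).2.2
    have hsz : ∀ z, Summable fun n : ℕ => (1 / 2 : ℝ) ^ n * (φ n z : ℝ) := fun z =>
      Summable.of_norm_bounded hsum fun n => hbd n z
    have hnn : ∀ n z, 0 ≤ (1 / 2 : ℝ) ^ n * (φ n z : ℝ) := fun n z =>
      mul_nonneg (by positivity) (φ n z).2.1
    refine ⟨fun z => f z + ∑' n, (1 / 2 : ℝ) ^ n * (φ n z : ℝ), ?_, ?_, ?_, ?_⟩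
    · exact hf.add (continuous_tsum (fun n => continuous_const.mul
        (continuous_subtype_val.comp (hφ n))) hsum hbd)
    · simp [hfx, hφx]
    · intro p
      exact add_pos_of_pos_of_nonneg (hfX p) (tsum_nonneg fun n => hnn n _)
    · intro n
      refine add_pos_of_nonneg_of_pos (hfn _) ?_
      refine (hsz (y n)).tsum_pos (fun m => hnn m _) n ?_
      rw [hφy]
      simp
  -- `s n = 1 / Φ (y n)` tends to infinity
  let s : ℕ → ℝ := fun n => (Φ (y n))⁻¹
  have hs : Tendsto s atTop atTop := by
    apply Filter.Tendsto.inv_tendsto_nhdsGT_zero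
    rw [tendsto_nhdsWithin_iff]
    refine ⟨?_, Eventually.of_forall fun n => hΦy n⟩
    have := (hΦ.tendsto x).comp hy
    rw [hΦx] at this
    exact this
  obtain ⟨φ, hφ, hsφ⟩ := exists_separated s hs
  -- the oscillating function
  let S : Set ℝ := range fun k => s (φ (2 * k))
  let H : ℝ → ℝ := fun t => max 0 (1 - Metric.infDist t S)
  have hH : Continuous H := continuous_const.max (continuous_const.sub (Metric.continuous_infDist_pt S))
  have hHb : ∀ t, H t ∈ Icc (-1 : ℝ) 1 := fun t =>
    ⟨le_trans (by norm_num) (le_max_left _ _),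
      max_le zero_le_one (by linarith [Metric.infDist_nonneg (x := t) (s := S)])⟩
  have hH1 : ∀ k, H (s (φ (2 * k))) = 1 := by
    intro k
    have : Metric.infDist (s (φ (2 * k))) S = 0 := Metric.infDist_zero_of_mem ⟨k, rfl⟩
    simp [H, this]
  have hH0 : ∀ k, H (s (φ (2 * k + 1))) = 0 := by
    intro k
    have : 1 ≤ Metric.infDist (s (φ (2 * k + 1))) S := by
      refine (Metric.le_infDist (range_nonempty _)).2 ?_
      rintro _ ⟨l, rfl⟩
      rw [Real.dist_eq]
      rcases lt_or_ge (2 * k + 1) (2 * l) with h | h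
      · have := hsφ _ _ h
        rw [abs_sub_comm]
        exact le_trans (by linarith) (le_abs_self _)
      · have h' : 2 * l < 2 * k + 1 := by omega
        have := hsφ _ _ h'
        exact le_trans (by linarith) (le_abs_self _)
    exact max_eq_left (by linarith)
  -- extend `H (1 / Φ)`
  obtain ⟨G, hG, hG'⟩ := exists_ext (X := X) (fun p => H ((Φ (stoneCechUnit p))⁻¹))
    (hH.comp ((hΦ.comp continuous_stoneCechUnit).inv₀ fun p => (hΦX p).ne'))
    (fun p => hHb _)
  have hGy : ∀ n, G (y n) = H (s n) := by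
    intro n
    have := neBot_trace (y n)
    have hT : Tendsto (stoneCechUnit : X → StoneCech X)
      (comap (stoneCechUnit : X → StoneCech X) (𝓝 (y n))) (𝓝 (y n)) := tendsto_comap
    have h1 := (hG.tendsto (y n)).comp hT
    have h2 : Tendsto (fun z => H ((Φ z)⁻¹)) (𝓝 (y n)) (𝓝 (H (s n))) :=
      (hH.tendsto _).comp ((hΦ.tendsto (y n)).inv₀ (hΦy n).ne')
    have h3 := h2.comp hT
    refine tendsto_nhds_unique h1 (h3.congr fun p => ?_)
    exact (hG' p).symm
  -- contradiction
  have hlim := (hG.tendsto x).comp hy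
  have he : Tendsto (fun k : ℕ => φ (2 * k)) atTop atTop :=
    hφ.tendsto_atTop.comp (tendsto_atTop_mono (fun k => by omega : ∀ k : ℕ, k ≤ 2 * k) tendsto_id)
  have ho : Tendsto (fun k : ℕ => φ (2 * k + 1)) atTop atTop :=
    hφ.tendsto_atTop.comp
      (tendsto_atTop_mono (fun k => by omega : ∀ k : ℕ, k ≤ 2 * k + 1) tendsto_id)
  have h1 := hlim.comp he
  have h0 := hlim.comp ho
  have h1' : Tendsto (fun _ : ℕ => (1 : ℝ)) atTop (𝓝 (G x)) := by
    refine h1.congr fun k => ?_
    simp only [Function.comp_apply, hGy]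
    exact hH1 k
  have h0' : Tendsto (fun _ : ℕ => (0 : ℝ)) atTop (𝓝 (G x)) := by
    refine h0.congr fun k => ?_
    simp only [Function.comp_apply, hGy]
    exact hH0 k
  have e1 := tendsto_nhds_unique h1' tendsto_const_nhds
  have e0 := tendsto_nhds_unique h0' tendsto_const_nhds
  rw [e1] at e0
  exact one_ne_zero e0

/-- The remainder of a realcompact space has no isolated points. -/
lemma neBot_punctured (hX : Realcompact X) (x : Remainder X) : (𝓝[≠] x).NeBot := by
  by_contra hcon
  rw [not_neBot, ← isOpen_singleton_iff_punctured_nhds] at hcon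
  obtain ⟨U, hU, hUx⟩ := isOpen_induced_iff.1 hcon
  have hxU : (x : StoneCech X) ∈ U := by
    have : x ∈ (Subtype.val ⁻¹' U : Set (Remainder X)) := hUx ▸ rfl
    exact this
  obtain ⟨f, hf, hfx, hfn, hfX⟩ := exists_zero hX x.2
  obtain ⟨K, hK, hKc, hKU⟩ := exists_mem_nhds_isClosed_subset (hU.mem_nhds hxU)
  have hpt : ∀ n : ℕ, ∃ p : X, (stoneCechUnit p : StoneCech X) ∈ K ∧
      f (stoneCechUnit p) < 1 / ((n : ℝ) + 1) := by
    intro n
    have hO : IsOpen {z | f z < 1 / ((n : ℝ) + 1)} := isOpen_lt hf continuous_const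
    have hx' : {z | f z < 1 / ((n : ℝ) + 1)} ∈ 𝓝 (x : StoneCech X) := by
      refine hO.mem_nhds ?_
      change f x < _
      rw [hfx]; positivity
    have := neBot_trace (x : StoneCech X)
    have h1 : stoneCechUnit ⁻¹' (K ∩ {z | f z < 1 / ((n : ℝ) + 1)}) ∈
        comap (stoneCechUnit : X → StoneCech X) (𝓝 (x : StoneCech X)) :=
      preimage_mem_comap (inter_mem hK hx')
    obtain ⟨p, hp⟩ := Filter.nonempty_of_mem h1
    exact ⟨p, hp⟩
  choose p hpK hpf using hpt
  refine no_seq hf hfx hfn hfX (fun n => stoneCechUnit (p n)) ?_ ?_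
  · refine hKc.isCompact.tendsto_nhds_of_unique_mapClusterPt (Eventually.of_forall hpK) ?_
    intro z hz hcl
    have hfz : f z = 0 := by
      have h1 : MapClusterPt (f z) atTop (f ∘ fun n => (stoneCechUnit (p n) : StoneCech X)) :=
        hcl.continuousAt_comp hf.continuousAt
      have h2 : Tendsto (f ∘ fun n => (stoneCechUnit (p n) : StoneCech X)) atTop (𝓝 0) :=
        squeeze_zero (fun n => hfn _) (fun n => (hpf n).le) tendsto_one_div_add_atTop_nhds_zero_nat
      have h3 : ClusterPt (f z) (𝓝 (0 : ℝ)) := ClusterPt.mono h1 h2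
      exact eq_of_nhds_neBot h3
    have hzR : z ∈ Remainder X := by
      rintro ⟨q, rfl⟩
      exact (hfX q).ne' hfz
    have h3 : (⟨z, hzR⟩ : Remainder X) ∈ (Subtype.val ⁻¹' U : Set (Remainder X)) := hKU hz
    rw [hUx] at h3
    exact congrArg Subtype.val h3
  · intro n h
    exact x.2 ⟨p n, h⟩

/-- Injective choice from infinite sets. -/
lemma exists_injective {Y : Type*} (U : ℕ → Set Y) (hU : ∀ n, (U n).Infinite) :
    ∃ x : ℕ → Y, Function.Injective x ∧ ∀ n, x n ∈ U n := by
  classical
  have hch : ∀ (n : ℕ) (s : Finset Y), ∃ a, a ∈ U n ∧ a ∉ s := fun n s =>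
    (hU n).exists_notMem_finset s
  choose c hc1 hc2 using hch
  let st : ℕ → Finset Y := fun n => Nat.rec ∅ (fun k s => insert (c k s) s) n
  have hst : ∀ n, st (n + 1) = insert (c n (st n)) (st n) := fun _ => rfl
  have hmono : Monotone st := monotone_nat_of_le_succ fun n => by
    rw [hst]; exact Finset.subset_insert _ _
  refine ⟨fun n => c n (st n), ?_, fun n => hc1 _ _⟩
  have key : ∀ m n, m < n → c m (st m) ≠ c n (st n) := by
    intro m n hmn h
    have h1 : c m (st m) ∈ st (m + 1) := by rw [hst]; exact Finset.mem_insert_self _ _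
    have h2 : c m (st m) ∈ st n := hmono hmn h1
    rw [h] at h2
    exact hc2 n (st n) h2
  intro m n hmn
  rcases lt_trichotomy m n with h | h | h
  · exact absurd hmn (key m n h)
  · exact h
  · exact absurd hmn.symm (key n m h)

/-- Q1 of MP_47dce7_gt: the remainder `X*` of a realcompact space is SHD. -/
theorem result (X : Type u) [TopologicalSpace X] [T35Space X] (hX : Realcompact X)
    (_hnc : ¬ CompactSpace X) : SHD (Remainder X) := by
  intro U hU
  have hinf : ∀ n, (U n).Infinite := by
    intro n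
    obtain ⟨x, hx⟩ := (hU n).2
    have := neBot_punctured hX x
    exact infinite_of_mem_nhds x ((hU n).1.mem_nhds hx)
  obtain ⟨x, hxi, hxU⟩ := exists_injective U hinf
  refine ⟨x, hxU, fun φ hφ y hy => ?_⟩
  obtain ⟨f, hf, hfx, hfn, hfX⟩ := exists_zero hX y.2
  -- eventually different from the limit
  obtain ⟨N, hN⟩ : ∃ N, ∀ n ≥ N, x (φ n) ≠ y := by
    by_cases h : ∃ m, x (φ m) = y
    · obtain ⟨m, hm⟩ := h
      refine ⟨m + 1, fun n hn h' => ?_⟩
      have := hφ.injective (hxi (h'.trans hm.symm))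
      omega
    · push Not at h
      exact ⟨0, fun n _ => h n⟩
  refine no_seq hf hfx hfn hfX (fun n => (x (φ (n + N)) : StoneCech X)) ?_ ?_
  · have h1 : Tendsto (fun n => x (φ (n + N))) atTop (𝓝 y) :=
      hy.comp (tendsto_add_atTop_nat N)
    exact (continuous_subtype_val.tendsto y).comp h1
  · intro n h
    exact hN (n + N) (Nat.le_add_left _ _) (Subtype.ext h)

end

end Pool.Agent.Results.MP_47dce7_gt.RealcompactRemainder
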